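import Mathlib

/-!
Simultaneous squarefree values of linear forms `c * t + 1`: positive proportion.
-/

open Filter Topology Finset

namespace Pool.Agent.H311R2

/-- number of `t ∈ [1, T]` with `d² ∣ c t + 1` -/
lemma card_sq_dvd (c d T : ℕ) (hd : 0 < d) :
    ((Icc 1 T).filter fun t => d ^ 2 ∣ c * t + 1).card ≤ T / d ^ 2 + 1 := by
  have hd2 : 0 < d ^ 2 := by positivity
  calc ((Icc 1 T).filter fun t => d ^ 2 ∣ c * t + 1).card
      = (((Icc 1 T).filter fun t => d ^ 2 ∣ c * t + 1).image fun t => t / d ^ 2).card := by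
        rw [Finset.card_image_of_injOn]
        intro x hx y hy hxy
        simp only [coe_filter, mem_Icc, Set.mem_ofPred_eq] at hx hy
        simp only at hxy
        have hcop : Nat.Coprime (d ^ 2) c := by
          have h1 : Nat.Coprime (c * x + 1) c := by
            rw [Nat.coprime_mul_left_add_left]
            exact Nat.coprime_one_left c
          exact Nat.Coprime.coprime_dvd_left hx.2 h1
        have h2 : c * x + 1 ≡ c * y + 1 [MOD d ^ 2] :=
          ((Nat.modEq_zero_iff_dvd.2 hx.2).trans (Nat.modEq_zero_iff_dvd.2 hy.2).symm)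
        have h3 : c * x ≡ c * y [MOD d ^ 2] := Nat.ModEq.add_right_cancel' 1 h2
        have h4 : x ≡ y [MOD d ^ 2] := Nat.ModEq.cancel_left_of_coprime hcop h3
        have h5 : x % d ^ 2 = y % d ^ 2 := h4
        rw [← Nat.div_add_mod x (d ^ 2), ← Nat.div_add_mod y (d ^ 2), hxy, h5]
    _ ≤ (range (T / d ^ 2 + 1)).card := by
        apply Finset.card_le_card
        intro z hz
        simp only [mem_image, mem_filter, mem_Icc] at hz
        obtain ⟨t, ⟨⟨_, ht⟩, _⟩, rfl⟩ := hz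
        rw [mem_range, Nat.lt_succ_iff]
        exact Nat.div_le_div_right ht
    _ = T / d ^ 2 + 1 := card_range _

lemma card_not_squarefree (c Z T : ℕ) (hZ : 0 < Z) (hc : ∀ p, p.Prime → p ≤ Z → p ∣ c) :
    (((Icc 1 T).filter fun t => ¬ Squarefree (c * t + 1)).card : ℝ) ≤
      T / Z + Nat.sqrt (c * T + 1) := by
  set M := Nat.sqrt (c * T + 1) with hM
  have hsub : (Icc 1 T).filter (fun t => ¬ Squarefree (c * t + 1)) ⊆
      (Ioc Z M).biUnion fun d => (Icc 1 T).filter fun t => d ^ 2 ∣ c * t + 1 := by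
    intro t ht
    simp only [mem_filter, mem_Icc] at ht
    obtain ⟨⟨ht1, htT⟩, hns⟩ := ht
    rw [Nat.squarefree_iff_prime_squarefree] at hns
    push Not at hns
    obtain ⟨p, hp, hpd⟩ := hns
    simp only [mem_biUnion, mem_Ioc, mem_filter, mem_Icc]
    refine ⟨p, ⟨?_, ?_⟩, ⟨ht1, htT⟩, by rw [pow_two]; exact hpd⟩
    · by_contra hle
      push Not at hle
      have h1 : p ∣ c := hc p hp hle
      have h2 : p ∣ c * t + 1 := (Dvd.intro _ rfl).trans hpd
      have h3 : p ∣ 1 := (Nat.dvd_add_right (h1.mul_right t)).1 h2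
      exact hp.one_lt.ne' (Nat.dvd_one.1 h3)
    · rw [hM, Nat.le_sqrt]
      calc p * p ≤ c * t + 1 := Nat.le_of_dvd (Nat.succ_pos _) hpd
        _ ≤ c * T + 1 := by gcongr
  have h1 : ((Icc 1 T).filter fun t => ¬ Squarefree (c * t + 1)).card ≤
      ∑ d ∈ Ioc Z M, (T / d ^ 2 + 1) := by
    refine (card_le_card hsub).trans (card_biUnion_le.trans ?_)
    refine Finset.sum_le_sum fun d hd => card_sq_dvd c d T ?_
    rw [mem_Ioc] at hd
    omega
  have h2 : (((Icc 1 T).filter fun t => ¬ Squarefree (c * t + 1)).card : ℝ) ≤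
      ∑ d ∈ Ioc Z M, ((T : ℝ) * ((d : ℝ) ^ 2)⁻¹ + 1) := by
    calc (((Icc 1 T).filter fun t => ¬ Squarefree (c * t + 1)).card : ℝ)
        ≤ ((∑ d ∈ Ioc Z M, (T / d ^ 2 + 1) : ℕ) : ℝ) := by exact_mod_cast h1
      _ ≤ _ := by
        push_cast
        refine Finset.sum_le_sum fun d _ => ?_
        gcongr
        rw [← div_eq_mul_inv]
        exact_mod_cast Nat.cast_div_le (α := ℝ) (m := T) (n := d ^ 2)
  refine h2.trans ?_
  rw [Finset.sum_add_distrib, ← Finset.mul_sum]
  have h3 : ∑ d ∈ Ioc Z M, ((d : ℝ) ^ 2)⁻¹ ≤ (Z : ℝ)⁻¹ := by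
    rcases le_or_gt Z M with h | h
    · refine (sum_Ioc_inv_sq_le_sub hZ.ne' h).trans ?_
      have : (0 : ℝ) ≤ (M : ℝ)⁻¹ := by positivity
      linarith
    · rw [Finset.Ioc_eq_empty (by omega)]
      simp
  have h4 : ∑ _d ∈ Ioc Z M, (1 : ℝ) ≤ M := by
    rw [Finset.sum_const, Nat.card_Ioc, nsmul_eq_mul, mul_one]
    exact_mod_cast Nat.sub_le M Z
  have h5 : (T : ℝ) * ∑ d ∈ Ioc Z M, ((d : ℝ) ^ 2)⁻¹ ≤ T / Z := by
    rw [div_eq_mul_inv]
    gcongr
  linarith

/-- For a finite set `F` of positive integers there is `K > 0` such that for all large `T`, for at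
least half of the `t ∈ [1, T]` all numbers `c * (K * t) + 1`, `c ∈ F`, are squarefree. -/
theorem squarefree_forms (F : Finset ℕ) :
    ∃ K : ℕ, 0 < K ∧ ∀ᶠ T : ℕ in atTop,
      (T : ℝ) / 2 ≤ (((Icc 1 T).filter fun t => ∀ c ∈ F, Squarefree (c * (K * t) + 1)).card : ℝ) := by
  set Z : ℕ := 4 * F.card + 1 with hZ
  refine ⟨Z.factorial, Nat.factorial_pos _, ?_⟩
  set K := Z.factorial with hK
  -- the square root term is negligible
  have hlim : ∀ c ∈ F, ∀ᶠ T : ℕ in atTop,
      (Nat.sqrt (c * K * T + 1) : ℝ) * (F.card + 1) ≤ T / 4 := by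
    intro c _
    have h1 : Tendsto (fun T : ℕ => (T : ℝ)) atTop atTop := tendsto_natCast_atTop_atTop
    filter_upwards [eventually_ge_atTop 1, h1.eventually_ge_atTop
      (16 * ((F.card : ℝ) + 1) ^ 2 * (c * K + 1))] with T hT1 hT
    have hT1' : (1 : ℝ) ≤ T := by exact_mod_cast hT1
    have h2 : ((Nat.sqrt (c * K * T + 1) : ℕ) : ℝ) ^ 2 ≤ (c * K + 1) * T := by
      have h3 : (Nat.sqrt (c * K * T + 1)) ^ 2 ≤ c * K * T + 1 := Nat.sqrt_le' _
      have h4 : (((Nat.sqrt (c * K * T + 1)) ^ 2 : ℕ) : ℝ) ≤ ((c * K * T + 1 : ℕ) : ℝ) := by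
        exact_mod_cast h3
      push_cast at h4
      nlinarith
    have h5 : ((Nat.sqrt (c * K * T + 1) : ℝ) * (F.card + 1)) ^ 2 ≤ (T / 4 : ℝ) ^ 2 := by
      rw [mul_pow]
      calc ((Nat.sqrt (c * K * T + 1) : ℕ) : ℝ) ^ 2 * ((F.card : ℝ) + 1) ^ 2
          ≤ ((c * K + 1) * T) * ((F.card : ℝ) + 1) ^ 2 := by gcongr
        _ = (16 * ((F.card : ℝ) + 1) ^ 2 * (c * K + 1)) * T / 16 := by ring
        _ ≤ T * T / 16 := by gcongr
        _ = (T / 4 : ℝ) ^ 2 := by ring
    exact (pow_le_pow_iff_left₀ (by positivity) (by positivity) two_ne_zero).1 h5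
  have hall : ∀ᶠ T : ℕ in atTop, ∀ c ∈ F,
      (Nat.sqrt (c * K * T + 1) : ℝ) * (F.card + 1) ≤ T / 4 :=
    (Finset.eventually_all F).2 hlim
  filter_upwards [hall] with T hT
  have hbad : (((Icc 1 T).filter fun t => ¬ ∀ c ∈ F, Squarefree (c * (K * t) + 1)).card : ℝ) ≤
      T / 2 := by
    have hsub : (Icc 1 T).filter (fun t => ¬ ∀ c ∈ F, Squarefree (c * (K * t) + 1)) ⊆
        F.biUnion fun c => (Icc 1 T).filter fun t => ¬ Squarefree (c * K * t + 1) := by
      intro t ht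
      simp only [mem_filter] at ht
      obtain ⟨ht1, ht2⟩ := ht
      push Not at ht2
      obtain ⟨c, hc, hns⟩ := ht2
      simp only [mem_biUnion, mem_filter]
      exact ⟨c, hc, ht1, by rwa [mul_assoc]⟩
    have h1 : (((Icc 1 T).filter fun t => ¬ ∀ c ∈ F, Squarefree (c * (K * t) + 1)).card : ℝ) ≤
        ∑ c ∈ F, ((((Icc 1 T).filter fun t => ¬ Squarefree (c * K * t + 1)).card : ℕ) : ℝ) := by
      exact_mod_cast (card_le_card hsub).trans card_biUnion_le
    refine h1.trans ?_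
    have h2 : ∀ c ∈ F, ((((Icc 1 T).filter fun t => ¬ Squarefree (c * K * t + 1)).card : ℕ) : ℝ) ≤
        T / Z + T / 4 / (F.card + 1) := by
      intro c hc
      refine (card_not_squarefree (c * K) Z T (by omega) fun p hp hpZ =>
        ((Nat.Prime.dvd_factorial hp).2 hpZ).mul_left c).trans ?_
      have h3 := hT c hc
      rw [← le_div_iff₀ (by positivity)] at h3
      linarith
    refine (Finset.sum_le_sum h2).trans ?_
    rw [Finset.sum_const, nsmul_eq_mul]
    have hZ' : (Z : ℝ) = 4 * F.card + 1 := by rw [hZ]; push_cast; ring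
    rw [hZ']
    have hF : (0 : ℝ) ≤ F.card := by positivity
    have hTn : (0 : ℝ) ≤ T := by positivity
    have h4 : (F.card : ℝ) * (T / (4 * F.card + 1)) ≤ T / 4 := by
      rw [mul_div_assoc', div_le_div_iff₀ (by positivity) (by norm_num)]
      nlinarith
    have h5 : (F.card : ℝ) * (T / 4 / (F.card + 1)) ≤ T / 4 := by
      rw [mul_div_assoc', div_le_iff₀ (by positivity)]
      nlinarith
    calc (F.card : ℝ) * (T / (4 * F.card + 1) + T / 4 / (F.card + 1))
        = (F.card : ℝ) * (T / (4 * F.card + 1)) + (F.card : ℝ) * (T / 4 / (F.card + 1)) := by ring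
      _ ≤ T / 4 + T / 4 := add_le_add h4 h5
      _ = T / 2 := by ring
  have htot : ((Icc 1 T).filter fun t => ∀ c ∈ F, Squarefree (c * (K * t) + 1)).card +
      ((Icc 1 T).filter fun t => ¬ ∀ c ∈ F, Squarefree (c * (K * t) + 1)).card = T := by
    classical
    rw [Finset.card_filter_add_card_filter_not]
    simp
  have htot' : (((Icc 1 T).filter fun t => ∀ c ∈ F, Squarefree (c * (K * t) + 1)).card : ℝ) +
      (((Icc 1 T).filter fun t => ¬ ∀ c ∈ F, Squarefree (c * (K * t) + 1)).card : ℝ) = T := by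
    exact_mod_cast htot
  linarith

end Pool.Agent.H311R2
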