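import Mathlib
import Pool.Agent.H311R2.SqfreeForms

/-!
Odd order Chowla products: if both signs occur, both signs have positive lower density.
-/

open Filter Topology Finset

namespace Pool.Agent.H311R2

/-- The Chowla product `∏ μ(n + α_i)^{ε_i}`. -/
def chow {r : ℕ} (α : Fin r → ℤ) (ε : Fin r → ℕ) (n : ℕ) : ℤ :=
  ∏ i, ArithmeticFunction.moebius (((n : ℤ) + α i).toNat) ^ ε i

section

variable {r : ℕ} {α : Fin r → ℤ} {ε : Fin r → ℕ}

lemma chow_factor_ne (hε : ∀ i, ε i = 1 ∨ ε i = 2) {b : ℕ} (hb : chow α ε b ≠ 0) (k : Fin r) :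
    ArithmeticFunction.moebius (((b : ℤ) + α k).toNat) ≠ 0 := by
  intro h
  apply hb
  unfold chow
  apply Finset.prod_eq_zero (mem_univ k)
  rw [h]
  rcases hε k with h1 | h1 <;> rw [h1] <;> norm_num

lemma chow_pos (hε : ∀ i, ε i = 1 ∨ ε i = 2) {b : ℕ} (hb : chow α ε b ≠ 0) (k : Fin r) :
    0 < ((b : ℤ) + α k).toNat := by
  have h := chow_factor_ne hε hb k
  by_contra h0
  have : ((b : ℤ) + α k).toNat = 0 := by omega
  rw [this] at h
  simp at h

lemma chow_cast (hε : ∀ i, ε i = 1 ∨ ε i = 2) {b : ℕ} (hb : chow α ε b ≠ 0) (k : Fin r) :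
    ((((b : ℤ) + α k).toNat : ℕ) : ℤ) = (b : ℤ) + α k := by
  have := chow_pos hε hb k
  omega

/-- evaluation of the product at a number obtained from a seed -/
lemma chow_eval (hε : ∀ i, ε i = 1 ∨ ε i = 2) {b n : ℕ} (hb : chow α ε b ≠ 0) (w : Fin r → ℕ)
    (hn : ∀ k, (n : ℤ) + α k = ((((b : ℤ) + α k).toNat * w k : ℕ) : ℤ))
    (hcop : ∀ k, Nat.Coprime (((b : ℤ) + α k).toNat) (w k))
    (hsq : ∀ k, Squarefree (w k)) :
    chow α ε n = chow α ε b * ∏ k ∈ univ.filter (fun k => ε k = 1),
      ArithmeticFunction.moebius (w k) := by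
  have h1 : chow α ε n = ∏ k, (ArithmeticFunction.moebius (((b : ℤ) + α k).toNat) ^ ε k *
      ArithmeticFunction.moebius (w k) ^ ε k) := by
    unfold chow
    refine Finset.prod_congr rfl fun k _ => ?_
    rw [hn k, Int.toNat_natCast, ArithmeticFunction.isMultiplicative_moebius.map_mul_of_coprime
      (hcop k), mul_pow]
  rw [h1, Finset.prod_mul_distrib]
  congr 1
  rw [Finset.prod_filter]
  refine Finset.prod_congr rfl fun k _ => ?_
  rcases hε k with h | h
  · simp [h]
  · rw [if_neg (by omega), h]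
    have h2 := ArithmeticFunction.moebius_ne_zero_iff_squarefree.2 (hsq k)
    rcases ArithmeticFunction.moebius_ne_zero_iff_eq_or.1 h2 with h3 | h3 <;> rw [h3] <;> norm_num

lemma chow_unit {b : ℕ} (hb : chow α ε b ≠ 0) : chow α ε b = 1 ∨ chow α ε b = -1 := by
  have h1 : |chow α ε b| = 1 := by
    unfold chow at hb ⊢
    rw [Finset.abs_prod]
    refine Finset.prod_eq_one fun i hi => ?_
    have h2 : ArithmeticFunction.moebius (((b : ℤ) + α i).toNat) ^ ε i ≠ 0 :=
      fun h => hb (Finset.prod_eq_zero hi h)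
    rw [abs_pow]
    by_cases hε : ε i = 0
    · simp [hε]
    have h3 : ArithmeticFunction.moebius (((b : ℤ) + α i).toNat) ≠ 0 := fun h => h2 (by
      rw [h, zero_pow hε])
    rcases ArithmeticFunction.moebius_ne_zero_iff_eq_or.1 h3 with h4 | h4 <;> simp [h4]
  rcases (abs_eq (by norm_num : (0 : ℤ) ≤ 1)).1 h1 with h | h
  · exact Or.inl h
  · exact Or.inr h

/-- the index type of the family of progressions -/
abbrev Idx (r : ℕ) := Bool × Fin r

/-- Main step: finitely many progressions, on which for at least half of the parameters both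
signs occur. -/
theorem exists_family (hε : ∀ i, ε i = 1 ∨ ε i = 2)
    (hodd : Odd (univ.filter fun i => ε i = 1).card) {b b' : ℕ} (hb : chow α ε b = 1)
    (hb' : chow α ε b' = -1) :
    ∃ (A B : Idx r → ℕ), (∀ s, 0 < A s) ∧ ∀ᶠ T : ℕ in atTop,
      (T : ℝ) / 2 ≤ (((Icc 1 T).filter fun t => (∃ s, chow α ε (A s * t + B s) = 1) ∧
        ∃ s, chow α ε (A s * t + B s) = -1).card : ℝ) := by
  classical
  have hb0 : chow α ε b ≠ 0 := by rw [hb]; norm_num
  have hb0' : chow α ε b' ≠ 0 := by rw [hb']; norm_num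
  set J := univ.filter fun i => ε i = 1 with hJ
  set x : Fin r → ℕ := fun k => ((b : ℤ) + α k).toNat with hx
  set x' : Fin r → ℕ := fun k => ((b' : ℤ) + α k).toNat with hx'
  have hxpos : ∀ k, 0 < x k := chow_pos hε hb0
  have hxpos' : ∀ k, 0 < x' k := chow_pos hε hb0'
  set D0 : ℕ := (∏ k, x k) * ∏ k, x' k with hD0
  have hD0pos : 0 < D0 := Nat.mul_pos (Finset.prod_pos fun k _ => hxpos k)
    (Finset.prod_pos fun k _ => hxpos' k)
  have hxD : ∀ k, x k ∣ D0 := fun k => (Finset.dvd_prod_of_mem x (mem_univ k)).mul_right _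
  have hxD' : ∀ k, x' k ∣ D0 := fun k => (Finset.dvd_prod_of_mem x' (mem_univ k)).mul_left _
  set U : Fin r → ℕ := fun k => D0 * (D0 / x k) with hU
  set U' : Fin r → ℕ := fun k => D0 * (D0 / x' k) with hU'
  have hxU : ∀ k, x k * U k = D0 ^ 2 := by
    intro k
    simp only [hU]
    calc x k * (D0 * (D0 / x k)) = D0 * (x k * (D0 / x k)) := by ring
      _ = D0 ^ 2 := by rw [Nat.mul_div_cancel' (hxD k)]; ring
  have hxU' : ∀ k, x' k * U' k = D0 ^ 2 := by
    intro k
    simp only [hU']
    calc x' k * (D0 * (D0 / x' k)) = D0 * (x' k * (D0 / x' k)) := by ring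
      _ = D0 ^ 2 := by rw [Nat.mul_div_cancel' (hxD' k)]; ring
  have hUpos : ∀ k, 0 < U k := fun k => Nat.pos_of_ne_zero fun h => by
    have := hxU k
    rw [h] at this
    have h2 : 0 < D0 ^ 2 := by positivity
    omega
  have hUpos' : ∀ k, 0 < U' k := fun k => Nat.pos_of_ne_zero fun h => by
    have := hxU' k
    rw [h] at this
    have h2 : 0 < D0 ^ 2 := by positivity
    omega
  have hdvd : ∀ k, x k ∣ U k := fun k => (hxD k).mul_right _
  have hdvd' : ∀ k, x' k ∣ U' k := fun k => (hxD' k).mul_right _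
  set F : Finset ℕ := (univ : Finset (Fin r × Fin r)).image fun p => U p.1 * U' p.2 with hF
  obtain ⟨K, hK, hev⟩ := squarefree_forms F
  refine ⟨fun s => if s.1 then D0 ^ 2 * U s.2 * K else D0 ^ 2 * U' s.2 * K,
    fun s => if s.1 then b' else b, ?_, ?_⟩
  · rintro ⟨_ | _, k⟩
    · have h2 := hUpos' k
      show 0 < D0 ^ 2 * U' k * K
      positivity
    · have h1 := hUpos k
      show 0 < D0 ^ 2 * U k * K
      positivity
  filter_upwards [hev] with T hT
  refine hT.trans ?_
  norm_cast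
  apply card_le_card
  intro t ht
  rw [mem_filter] at ht ⊢
  refine ⟨ht.1, ?_⟩
  have hsq : ∀ i k, Squarefree (U i * U' k * (K * t) + 1) := fun i k =>
    ht.2 _ (mem_image.2 ⟨(i, k), mem_univ _, rfl⟩)
  -- the values
  have hval : ∀ j, chow α ε (D0 ^ 2 * U' j * K * t + b) =
      ∏ k ∈ J, ArithmeticFunction.moebius (U k * U' j * (K * t) + 1) := by
    intro j
    have h := chow_eval (n := D0 ^ 2 * U' j * K * t + b) hε hb0
      (fun k => U k * U' j * (K * t) + 1) ?_ ?_ (fun k => hsq k j)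
    · rw [h, hb, one_mul]
    · intro k
      have h1 := chow_cast hε hb0 k
      have h2 : (x k : ℤ) * U k = (D0 : ℤ) ^ 2 := by exact_mod_cast hxU k
      have h3 : ((x k : ℕ) : ℤ) = (b : ℤ) + α k := h1
      show ((D0 ^ 2 * U' j * K * t + b : ℕ) : ℤ) + α k = ((x k * (U k * U' j * (K * t) + 1) : ℕ) : ℤ)
      push_cast
      rw [← h2, add_assoc, ← h3]
      ring
    · intro k
      have h1 : x k ∣ U k * U' j * (K * t) := ((hdvd k).mul_right _).mul_right _
      obtain ⟨c, hc⟩ := h1
      show Nat.Coprime (x k) (U k * U' j * (K * t) + 1)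
      rw [hc, add_comm]
      exact (Nat.coprime_add_mul_left_right (x k) 1 c).2 (Nat.coprime_one_right _)
  have hval' : ∀ i, chow α ε (D0 ^ 2 * U i * K * t + b') =
      - ∏ k ∈ J, ArithmeticFunction.moebius (U i * U' k * (K * t) + 1) := by
    intro i
    have h := chow_eval (n := D0 ^ 2 * U i * K * t + b') hε hb0'
      (fun k => U i * U' k * (K * t) + 1) ?_ ?_ (fun k => hsq i k)
    · rw [h, hb']
      ring
    · intro k
      have h1 := chow_cast hε hb0' k
      have h2 : (x' k : ℤ) * U' k = (D0 : ℤ) ^ 2 := by exact_mod_cast hxU' k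
      have h3 : ((x' k : ℕ) : ℤ) = (b' : ℤ) + α k := h1
      show ((D0 ^ 2 * U i * K * t + b' : ℕ) : ℤ) + α k = ((x' k * (U i * U' k * (K * t) + 1) : ℕ) : ℤ)
      push_cast
      rw [← h2, add_assoc, ← h3]
      ring
    · intro k
      have h1 : x' k ∣ U i * U' k * (K * t) := ((hdvd' k).mul_left _).mul_right _
      obtain ⟨c, hc⟩ := h1
      show Nat.Coprime (x' k) (U i * U' k * (K * t) + 1)
      rw [hc, add_comm]
      exact (Nat.coprime_add_mul_left_right (x' k) 1 c).2 (Nat.coprime_one_right _)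
  have hprod : ∏ i ∈ J, chow α ε (D0 ^ 2 * U i * K * t + b') =
      - ∏ j ∈ J, chow α ε (D0 ^ 2 * U' j * K * t + b) := by
    rw [Finset.prod_congr rfl fun i _ => hval' i, Finset.prod_congr rfl fun j _ => hval j,
      Finset.prod_neg, hodd.neg_one_pow, Finset.prod_comm]
    ring
  have hne : ∀ j, chow α ε (D0 ^ 2 * U' j * K * t + b) ≠ 0 := by
    intro j
    rw [hval j]
    exact Finset.prod_ne_zero_iff.2 fun k _ =>
      ArithmeticFunction.moebius_ne_zero_iff_squarefree.2 (hsq k j)
  have hne' : ∀ i, chow α ε (D0 ^ 2 * U i * K * t + b') ≠ 0 := by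
    intro i
    rw [hval' i, neg_ne_zero]
    exact Finset.prod_ne_zero_iff.2 fun k _ =>
      ArithmeticFunction.moebius_ne_zero_iff_squarefree.2 (hsq i k)
  constructor
  · by_contra hcon
    push Not at hcon
    have h1 : ∀ j, chow α ε (D0 ^ 2 * U' j * K * t + b) = -1 := fun j =>
      (chow_unit (hne j)).resolve_left (by simpa using hcon (false, j))
    have h2 : ∀ i, chow α ε (D0 ^ 2 * U i * K * t + b') = -1 := fun i =>
      (chow_unit (hne' i)).resolve_left (by simpa using hcon (true, i))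
    rw [Finset.prod_congr rfl fun i _ => h1 i, Finset.prod_congr rfl fun i _ => h2 i,
      Finset.prod_const, hodd.neg_one_pow] at hprod
    norm_num at hprod
  · by_contra hcon
    push Not at hcon
    have h1 : ∀ j, chow α ε (D0 ^ 2 * U' j * K * t + b) = 1 := fun j =>
      (chow_unit (hne j)).resolve_right (by simpa using hcon (false, j))
    have h2 : ∀ i, chow α ε (D0 ^ 2 * U i * K * t + b') = 1 := fun i =>
      (chow_unit (hne' i)).resolve_right (by simpa using hcon (true, i))
    rw [Finset.prod_congr rfl fun i _ => h1 i, Finset.prod_congr rfl fun i _ => h2 i,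
      Finset.prod_const] at hprod
    norm_num at hprod

end

end Pool.Agent.H311R2
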