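import Mathlib

/-!
Positive lower density from finitely many linear families.
-/

open Filter Topology Finset

namespace Pool.Agent.H311R2

theorem density_of_family {ι : Type*} [Fintype ι] (A B : ι → ℕ) (hA : ∀ s, 0 < A s)
    (S : ℕ → Prop) [DecidablePred S]
    (h : ∀ᶠ T : ℕ in atTop,
      (T : ℝ) / 2 ≤ ((Icc 1 T).filter fun t => ∃ s, S (A s * t + B s)).card) :
    ∃ c : ℝ, 0 < c ∧ ∀ᶠ N : ℕ in atTop, c * N ≤ ((Icc 1 N).filter S).card := by
  classical
  set C : ℕ := ∑ s, (A s + B s) + 1 with hC
  have hCpos : 0 < C := by omega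
  have hAC : ∀ s, A s + B s ≤ C := fun s =>
    (Finset.single_le_sum (f := fun s => A s + B s) (fun _ _ => Nat.zero_le _) (mem_univ s)).trans
      (Nat.le_succ _)
  set m : ℕ := Fintype.card ι + 1 with hm
  refine ⟨1 / (4 * m * C), by positivity, ?_⟩
  have hlim : Tendsto (fun N : ℕ => N / C) atTop atTop := Nat.tendsto_div_const_atTop hCpos.ne'
  filter_upwards [hlim.eventually h, eventually_ge_atTop (2 * C)] with N hN hN2
  set T := N / C with hT
  have hCT : C * T ≤ N := Nat.mul_div_le N C
  -- injection
  have hcard : ((Icc 1 T).filter fun t => ∃ s, S (A s * t + B s)).card ≤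
      Fintype.card ι * ((Icc 1 N).filter S).card := by
    have hch : ∀ t : ℕ, ∃ p : ι × ℕ, (∃ s, S (A s * t + B s)) → S (A p.1 * t + B p.1) ∧
        p.2 = A p.1 * t + B p.1 := by
      intro t
      by_cases hh : ∃ s, S (A s * t + B s)
      · obtain ⟨s, hs⟩ := hh
        exact ⟨(s, A s * t + B s), fun _ => ⟨hs, rfl⟩⟩
      · rcases isEmpty_or_nonempty ι with he | he
        · by_cases hι : Nonempty (ι × ℕ)
          · exact ⟨hι.some, fun h => absurd h hh⟩
          · exfalso
            by_cases hT0 : ∃ t, ∃ s, S (A s * t + B s)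
            · obtain ⟨_, s, _⟩ := hT0
              exact he.elim s
            · have h0 : ((Icc 1 T).filter fun t => ∃ s, S (A s * t + B s)).card = 0 := by
                rw [card_eq_zero, filter_eq_empty_iff]
                intro t _ h
                exact hT0 ⟨t, h⟩
              rw [h0] at hN
              have hT2 : 2 ≤ T := by
                rw [hT, Nat.le_div_iff_mul_le hCpos]
                exact hN2
              have hT2' : (2 : ℝ) ≤ T := by exact_mod_cast hT2
              norm_num at hN
              linarith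
        · exact ⟨(he.some, 0), fun h => absurd h hh⟩
    choose p hp using hch
    have hinj : Set.InjOn p ((Icc 1 T).filter fun t => ∃ s, S (A s * t + B s) : Finset ℕ) := by
      intro t ht t' ht' heq
      simp only [coe_filter, Set.mem_ofPred_eq] at ht ht'
      have h1 := (hp t ht.2).2
      have h2 := (hp t' ht'.2).2
      rw [heq, h2] at h1
      have h3 := hA (p t').1
      have h4 : A (p t').1 * t' = A (p t').1 * t := by omega
      exact (Nat.eq_of_mul_eq_mul_left h3 h4).symm
    rw [← Finset.card_image_of_injOn hinj]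
    calc (((Icc 1 T).filter fun t => ∃ s, S (A s * t + B s)).image p).card
        ≤ ((univ : Finset ι) ×ˢ ((Icc 1 N).filter S)).card := by
          apply card_le_card
          intro z hz
          rw [mem_image] at hz
          obtain ⟨t, ht, rfl⟩ := hz
          simp only [mem_filter, mem_Icc] at ht
          obtain ⟨hS, h2⟩ := hp t ht.2
          rw [mem_product]
          refine ⟨mem_univ _, ?_⟩
          rw [mem_filter, mem_Icc, h2]
          refine ⟨⟨?_, ?_⟩, hS⟩
          · have := Nat.mul_pos (hA (p t).1) (show 0 < t by omega)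
            omega
          · calc A (p t).1 * t + B (p t).1 ≤ A (p t).1 * t + B (p t).1 * t := by
                  have : B (p t).1 * 1 ≤ B (p t).1 * t := Nat.mul_le_mul_left _ ht.1.1
                  omega
              _ = (A (p t).1 + B (p t).1) * t := by ring
              _ ≤ C * T := Nat.mul_le_mul (hAC _) ht.1.2
              _ ≤ N := hCT
      _ = Fintype.card ι * ((Icc 1 N).filter S).card := by
          rw [card_product, card_univ]
  have hcard' : ((((Icc 1 T).filter fun t => ∃ s, S (A s * t + B s)).card : ℕ) : ℝ) ≤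
      m * (((Icc 1 N).filter S).card : ℝ) := by
    calc ((((Icc 1 T).filter fun t => ∃ s, S (A s * t + B s)).card : ℕ) : ℝ)
        ≤ (Fintype.card ι : ℝ) * (((Icc 1 N).filter S).card : ℝ) := by exact_mod_cast hcard
      _ ≤ m * (((Icc 1 N).filter S).card : ℝ) := by
        gcongr
        rw [hm]
        push_cast
        linarith
  have hTN : (N : ℝ) / (2 * C) ≤ T := by
    have h1 : N < C * (T + 1) := by
      have := Nat.lt_mul_div_succ N hCpos
      exact this
    have h2 : (N : ℝ) < C * (T + 1) := by exact_mod_cast h1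
    have h3 : (2 * C : ℝ) ≤ N := by exact_mod_cast hN2
    have hC' : (0 : ℝ) < C := by exact_mod_cast hCpos
    rw [div_le_iff₀ (by positivity)]
    nlinarith
  have hC' : (0 : ℝ) < C := by exact_mod_cast hCpos
  have hm' : (0 : ℝ) < m := by positivity
  have h5 : (N : ℝ) / (2 * C) / 2 ≤ m * (((Icc 1 N).filter S).card : ℝ) := by
    calc (N : ℝ) / (2 * C) / 2 ≤ T / 2 := by gcongr
      _ ≤ _ := hN.trans hcard'
  calc 1 / (4 * (m : ℝ) * C) * N = ((N : ℝ) / (2 * C) / 2) / m := by field_simp; ring
    _ ≤ (m * (((Icc 1 N).filter S).card : ℝ)) / m := by gcongr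
    _ = (((Icc 1 N).filter S).card : ℝ) := by field_simp

end Pool.Agent.H311R2
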