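import Mathlib
import Pool.Agent.H311R2.SqfreeForms

/-!
Local-global principle for simultaneous squarefree values of linear forms `a_j m + b_j`.
-/

open Filter Topology Finset

namespace Pool.Agent.H311R2

/-- number of `t ∈ [1, T]` with `d² ∣ c t + e` for `d` coprime to `c` -/
lemma card_sq_dvd' (c e d T : ℕ) (hd : 0 < d) (hcop : Nat.Coprime d c) :
    ((Icc 1 T).filter fun t => d ^ 2 ∣ c * t + e).card ≤ T / d ^ 2 + 1 := by
  have hd2 : 0 < d ^ 2 := by positivity
  calc ((Icc 1 T).filter fun t => d ^ 2 ∣ c * t + e).card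
      = (((Icc 1 T).filter fun t => d ^ 2 ∣ c * t + e).image fun t => t / d ^ 2).card := by
        rw [Finset.card_image_of_injOn]
        intro x hx y hy hxy
        simp only [coe_filter, mem_Icc, Set.mem_ofPred_eq] at hx hy
        simp only at hxy
        have hcop' : Nat.Coprime (d ^ 2) c := hcop.pow_left 2
        have h2 : c * x + e ≡ c * y + e [MOD d ^ 2] :=
          ((Nat.modEq_zero_iff_dvd.2 hx.2).trans (Nat.modEq_zero_iff_dvd.2 hy.2).symm)
        have h3 : c * x ≡ c * y [MOD d ^ 2] := Nat.ModEq.add_right_cancel' e h2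
        have h4 : x ≡ y [MOD d ^ 2] := Nat.ModEq.cancel_left_of_coprime hcop' h3
        have h5 : x % d ^ 2 = y % d ^ 2 := h4
        rw [← Nat.div_add_mod x (d ^ 2), ← Nat.div_add_mod y (d ^ 2), hxy, h5]
    _ ≤ (range (T / d ^ 2 + 1)).card := by
        apply Finset.card_le_card
        intro z hz
        simp only [mem_image, mem_filter, mem_Icc] at hz
        obtain ⟨t, ⟨⟨_, ht⟩, _⟩, rfl⟩ := hz
        rw [mem_range, Nat.lt_succ_iff]
        exact Nat.div_le_div_right ht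
    _ = T / d ^ 2 + 1 := card_range _

lemma card_not_squarefree' (c e Z T : ℕ) (hZ : 0 < Z) (he : 0 < e)
    (hc : ∀ p, p.Prime → p ≤ Z → p ^ 2 ∣ c ∧ ¬ p ^ 2 ∣ e)
    (hc' : ∀ p, p.Prime → Z < p → ¬ p ∣ c) :
    (((Icc 1 T).filter fun t => ¬ Squarefree (c * t + e)).card : ℝ) ≤
      T / Z + Nat.sqrt (c * T + e) := by
  classical
  set M := Nat.sqrt (c * T + e) with hM
  have hsub : (Icc 1 T).filter (fun t => ¬ Squarefree (c * t + e)) ⊆
      ((Ioc Z M).filter Nat.Prime).biUnion fun d => (Icc 1 T).filter fun t => d ^ 2 ∣ c * t + e := by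
    intro t ht
    simp only [mem_filter, mem_Icc] at ht
    obtain ⟨⟨ht1, htT⟩, hns⟩ := ht
    rw [Nat.squarefree_iff_prime_squarefree] at hns
    push Not at hns
    obtain ⟨p, hp, hpd⟩ := hns
    simp only [mem_biUnion, mem_Ioc, mem_filter, mem_Icc]
    refine ⟨p, ⟨⟨?_, ?_⟩, hp⟩, ⟨ht1, htT⟩, by rw [pow_two]; exact hpd⟩
    · by_contra hle
      push Not at hle
      obtain ⟨h1, h2⟩ := hc p hp hle
      rw [← pow_two] at hpd
      exact h2 ((Nat.dvd_add_right (h1.mul_right t)).1 hpd)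
    · rw [hM, Nat.le_sqrt]
      calc p * p ≤ c * t + e := Nat.le_of_dvd (by omega) hpd
        _ ≤ c * T + e := by gcongr
  have h1 : ((Icc 1 T).filter fun t => ¬ Squarefree (c * t + e)).card ≤
      ∑ d ∈ Ioc Z M, (T / d ^ 2 + 1) := by
    refine (card_le_card hsub).trans (card_biUnion_le.trans ?_)
    calc ∑ d ∈ (Ioc Z M).filter Nat.Prime, ((Icc 1 T).filter fun t => d ^ 2 ∣ c * t + e).card
        ≤ ∑ d ∈ (Ioc Z M).filter Nat.Prime, (T / d ^ 2 + 1) := by
          refine Finset.sum_le_sum fun d hd => card_sq_dvd' c e d T ?_ ?_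
          · rw [mem_filter] at hd
            exact hd.2.pos
          · rw [mem_filter, mem_Ioc] at hd
            exact (Nat.Prime.coprime_iff_not_dvd hd.2).2 (hc' d hd.2 hd.1.1)
      _ ≤ ∑ d ∈ Ioc Z M, (T / d ^ 2 + 1) :=
          Finset.sum_le_sum_of_subset_of_nonneg (filter_subset _ _) fun _ _ _ => Nat.zero_le _
  have h2 : (((Icc 1 T).filter fun t => ¬ Squarefree (c * t + e)).card : ℝ) ≤
      ∑ d ∈ Ioc Z M, ((T : ℝ) * ((d : ℝ) ^ 2)⁻¹ + 1) := by
    calc (((Icc 1 T).filter fun t => ¬ Squarefree (c * t + e)).card : ℝ)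
        ≤ ((∑ d ∈ Ioc Z M, (T / d ^ 2 + 1) : ℕ) : ℝ) := by exact_mod_cast h1
      _ ≤ _ := by
        push_cast
        refine Finset.sum_le_sum fun d _ => ?_
        gcongr
        rw [← div_eq_mul_inv]
        exact_mod_cast Nat.cast_div_le (α := ℝ) (m := T) (n := d ^ 2)
  refine h2.trans ?_
  rw [Finset.sum_add_distrib, ← Finset.mul_sum]
  have h3 : ∑ d ∈ Ioc Z M, ((d : ℝ) ^ 2)⁻¹ ≤ (Z : ℝ)⁻¹ := by
    rcases le_or_gt Z M with h | h
    · refine (sum_Ioc_inv_sq_le_sub hZ.ne' h).trans ?_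
      have : (0 : ℝ) ≤ (M : ℝ)⁻¹ := by positivity
      linarith
    · rw [Finset.Ioc_eq_empty (by omega)]
      simp
  have h4 : ∑ _d ∈ Ioc Z M, (1 : ℝ) ≤ M := by
    rw [Finset.sum_const, Nat.card_Ioc, nsmul_eq_mul, mul_one]
    exact_mod_cast Nat.sub_le M Z
  have h5 : (T : ℝ) * ∑ d ∈ Ioc Z M, ((d : ℝ) ^ 2)⁻¹ ≤ T / Z := by
    rw [div_eq_mul_inv]
    gcongr
  linarith

/-- a sieve bound for a finite family of forms `c t + e` -/
theorem squarefree_forms' (F : Finset (ℕ × ℕ)) (Z : ℕ) (hZ : 4 * F.card + 1 ≤ Z)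
    (hF : ∀ f ∈ F, 0 < f.2 ∧ (∀ p, p.Prime → p ≤ Z → p ^ 2 ∣ f.1 ∧ ¬ p ^ 2 ∣ f.2) ∧
      (∀ p, p.Prime → Z < p → ¬ p ∣ f.1)) :
    ∀ᶠ T : ℕ in atTop,
      (T : ℝ) / 2 ≤ (((Icc 1 T).filter fun t => ∀ f ∈ F, Squarefree (f.1 * t + f.2)).card : ℝ) := by
  have hlim : ∀ f ∈ F, ∀ᶠ T : ℕ in atTop,
      (Nat.sqrt (f.1 * T + f.2) : ℝ) * (F.card + 1) ≤ T / 4 := by
    intro f _
    have h1 : Tendsto (fun T : ℕ => (T : ℝ)) atTop atTop := tendsto_natCast_atTop_atTop
    filter_upwards [eventually_ge_atTop 1, h1.eventually_ge_atTop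
      (16 * ((F.card : ℝ) + 1) ^ 2 * (f.1 + f.2))] with T hT1 hT
    have hT1' : (1 : ℝ) ≤ T := by exact_mod_cast hT1
    have h2 : ((Nat.sqrt (f.1 * T + f.2) : ℕ) : ℝ) ^ 2 ≤ (f.1 + f.2) * T := by
      have h3 : (Nat.sqrt (f.1 * T + f.2)) ^ 2 ≤ f.1 * T + f.2 := Nat.sqrt_le' _
      have h4 : (((Nat.sqrt (f.1 * T + f.2)) ^ 2 : ℕ) : ℝ) ≤ ((f.1 * T + f.2 : ℕ) : ℝ) := by
        exact_mod_cast h3
      push_cast at h4
      have h5 : (0 : ℝ) ≤ f.2 := by positivity
      nlinarith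
    have h5 : ((Nat.sqrt (f.1 * T + f.2) : ℝ) * (F.card + 1)) ^ 2 ≤ (T / 4 : ℝ) ^ 2 := by
      rw [mul_pow]
      calc ((Nat.sqrt (f.1 * T + f.2) : ℕ) : ℝ) ^ 2 * ((F.card : ℝ) + 1) ^ 2
          ≤ ((f.1 + f.2) * T) * ((F.card : ℝ) + 1) ^ 2 := by gcongr
        _ = (16 * ((F.card : ℝ) + 1) ^ 2 * (f.1 + f.2)) * T / 16 := by ring
        _ ≤ T * T / 16 := by gcongr
        _ = (T / 4 : ℝ) ^ 2 := by ring
    exact (pow_le_pow_iff_left₀ (by positivity) (by positivity) two_ne_zero).1 h5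
  have hall : ∀ᶠ T : ℕ in atTop, ∀ f ∈ F,
      (Nat.sqrt (f.1 * T + f.2) : ℝ) * (F.card + 1) ≤ T / 4 :=
    (Finset.eventually_all F).2 hlim
  filter_upwards [hall] with T hT
  have hbad : (((Icc 1 T).filter fun t => ¬ ∀ f ∈ F, Squarefree (f.1 * t + f.2)).card : ℝ) ≤
      T / 2 := by
    have hsub : (Icc 1 T).filter (fun t => ¬ ∀ f ∈ F, Squarefree (f.1 * t + f.2)) ⊆
        F.biUnion fun f => (Icc 1 T).filter fun t => ¬ Squarefree (f.1 * t + f.2) := by
      intro t ht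
      simp only [mem_filter] at ht
      obtain ⟨ht1, ht2⟩ := ht
      push Not at ht2
      obtain ⟨f, hf, hns⟩ := ht2
      simp only [mem_biUnion, mem_filter]
      exact ⟨f, hf, ht1, hns⟩
    have h1 : (((Icc 1 T).filter fun t => ¬ ∀ f ∈ F, Squarefree (f.1 * t + f.2)).card : ℝ) ≤
        ∑ f ∈ F, ((((Icc 1 T).filter fun t => ¬ Squarefree (f.1 * t + f.2)).card : ℕ) : ℝ) := by
      exact_mod_cast (card_le_card hsub).trans card_biUnion_le
    refine h1.trans ?_
    have hZ0 : (0 : ℝ) < Z := by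
      have : 0 < Z := by omega
      exact_mod_cast this
    have h2 : ∀ f ∈ F, ((((Icc 1 T).filter fun t => ¬ Squarefree (f.1 * t + f.2)).card : ℕ) : ℝ) ≤
        T / Z + T / 4 / (F.card + 1) := by
      intro f hf
      obtain ⟨h0, ha, hb⟩ := hF f hf
      refine (card_not_squarefree' f.1 f.2 Z T (by omega) h0 ha hb).trans ?_
      have h3 := hT f hf
      rw [← le_div_iff₀ (by positivity)] at h3
      linarith
    refine (Finset.sum_le_sum h2).trans ?_
    rw [Finset.sum_const, nsmul_eq_mul]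
    have hZ' : (4 * F.card + 1 : ℝ) ≤ Z := by exact_mod_cast hZ
    have hF0 : (0 : ℝ) ≤ F.card := by positivity
    have hTn : (0 : ℝ) ≤ T := by positivity
    have h4 : (F.card : ℝ) * (T / Z) ≤ T / 4 := by
      rw [mul_div_assoc', div_le_div_iff₀ hZ0 (by norm_num)]
      nlinarith
    have h5 : (F.card : ℝ) * (T / 4 / (F.card + 1)) ≤ T / 4 := by
      rw [mul_div_assoc', div_le_iff₀ (by positivity)]
      nlinarith
    calc (F.card : ℝ) * (T / Z + T / 4 / (F.card + 1))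
        = (F.card : ℝ) * (T / Z) + (F.card : ℝ) * (T / 4 / (F.card + 1)) := by ring
      _ ≤ T / 4 + T / 4 := add_le_add h4 h5
      _ = T / 2 := by ring
  have htot : ((Icc 1 T).filter fun t => ∀ f ∈ F, Squarefree (f.1 * t + f.2)).card +
      ((Icc 1 T).filter fun t => ¬ ∀ f ∈ F, Squarefree (f.1 * t + f.2)).card = T := by
    classical
    rw [Finset.card_filter_add_card_filter_not]
    simp
  have htot' : (((Icc 1 T).filter fun t => ∀ f ∈ F, Squarefree (f.1 * t + f.2)).card : ℝ) +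
      (((Icc 1 T).filter fun t => ¬ ∀ f ∈ F, Squarefree (f.1 * t + f.2)).card : ℝ) = T := by
    exact_mod_cast htot
  linarith

/-- Local-global principle: if for every prime `p` there is an `m` for which no `a_j m + b_j` is
divisible by `p²`, then there are `W > 0` and `m₁` (as large as we like) such that for at least half
of the `t ≤ T` (for large `T`) all the numbers `a_j (W t + m₁) + b_j` are squarefree. -/
theorem local_global {ι : Type*} [Fintype ι] (a : ι → ℕ) (b : ι → ℤ) (ha : ∀ j, 0 < a j)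
    (hloc : ∀ p : ℕ, p.Prime → ∃ m : ℕ, ∀ j, ¬ ((p : ℤ) ^ 2 ∣ a j * m + b j)) (B : ℕ) :
    ∃ W m₁ : ℕ, 0 < W ∧ B ≤ m₁ ∧ (∀ j, 0 < (a j : ℤ) * m₁ + b j) ∧ ∀ᶠ T : ℕ in atTop,
      (T : ℝ) / 2 ≤ (((Icc 1 T).filter fun t =>
        ∀ j, Squarefree (((a j : ℤ) * ((W * t + m₁ : ℕ) : ℤ) + b j).toNat)).card : ℝ) := by
  classical
  set Z : ℕ := 4 * Fintype.card ι + 1 + ∑ j, a j with hZ
  have haZ : ∀ j, a j ≤ Z := fun j =>
    (Finset.single_le_sum (f := a) (fun _ _ => Nat.zero_le _) (mem_univ j)).trans (by omega)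
  choose! res hres using hloc
  set Pr : Finset ℕ := (range (Z + 1)).filter Nat.Prime with hPr
  have hpair : Set.Pairwise (Pr : Set ℕ) (Function.onFun Nat.Coprime fun p => p ^ 2) := by
    intro p hp q hq hne
    simp only [hPr, coe_filter, Set.mem_ofPred_eq] at hp hq
    exact Nat.Coprime.pow 2 2 ((Nat.coprime_primes hp.2 hq.2).2 hne)
  obtain ⟨k, hk⟩ := Nat.chineseRemainderOfFinset res (fun p => p ^ 2) Pr
    (fun p hp => by
      simp only [hPr, mem_filter] at hp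
      exact pow_ne_zero _ hp.2.ne_zero) hpair
  set W : ℕ := ∏ p ∈ Pr, p ^ 2 with hW
  have hWpos : 0 < W := Finset.prod_pos fun p hp => by
    simp only [hPr, mem_filter] at hp
    exact pow_pos hp.2.pos 2
  set S : ℕ := B + ∑ j, (b j).natAbs + 1 with hS
  set m₁ : ℕ := k + W * S with hm₁
  have hSm : S ≤ m₁ := by
    have : 1 * S ≤ W * S := Nat.mul_le_mul_right S hWpos
    omega
  have hpos : ∀ j, 0 < (a j : ℤ) * m₁ + b j := by
    intro j
    have h1 : (b j).natAbs ≤ ∑ j, (b j).natAbs :=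
      Finset.single_le_sum (f := fun j => (b j).natAbs) (fun _ _ => Nat.zero_le _) (mem_univ j)
    have h2 : ((b j).natAbs : ℤ) < m₁ := by
      have : (b j).natAbs < m₁ := by omega
      exact_mod_cast this
    have h3 : (m₁ : ℤ) ≤ a j * m₁ := by
      have h4 : (1 : ℤ) ≤ a j := by exact_mod_cast ha j
      nlinarith [Int.natCast_nonneg m₁]
    omega
  refine ⟨W, m₁, hWpos, by omega, hpos, ?_⟩
  set F : Finset (ℕ × ℕ) := univ.image fun j => (a j * W, ((a j : ℤ) * m₁ + b j).toNat) with hF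
  have hFcard : F.card ≤ Fintype.card ι := Finset.card_image_le
  have hWdvd : ∀ p, p.Prime → p ≤ Z → p ^ 2 ∣ W := by
    intro p hp hpZ
    refine Finset.dvd_prod_of_mem (fun p => p ^ 2) ?_
    simp only [hPr, mem_filter, mem_range]
    exact ⟨by omega, hp⟩
  have hev := squarefree_forms' F Z (by omega) (by
    intro f hf
    rw [hF, mem_image] at hf
    obtain ⟨j, _, rfl⟩ := hf
    refine ⟨?_, ?_, ?_⟩
    · have := hpos j
      show 0 < ((a j : ℤ) * m₁ + b j).toNat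
      omega
    · intro p hp hpZ
      refine ⟨(hWdvd p hp hpZ).mul_left _, ?_⟩
      intro hdvd
      apply hres p hp j
      have h1 : ((p : ℤ) ^ 2) ∣ (((a j : ℤ) * m₁ + b j).toNat : ℤ) := by exact_mod_cast hdvd
      rw [Int.toNat_of_nonneg (hpos j).le] at h1
      have h2 : k ≡ res p [MOD p ^ 2] := by
        apply hk p
        simp only [hPr, mem_filter, mem_range]
        exact ⟨by omega, hp⟩
      have h3 : ((p : ℤ) ^ 2) ∣ (res p : ℤ) - k := by
        have := (Nat.modEq_iff_dvd).1 h2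
        exact_mod_cast this
      have h4 : ((p : ℤ) ^ 2) ∣ (W : ℤ) := by exact_mod_cast hWdvd p hp hpZ
      have h5 : (a j : ℤ) * res p + b j = ((a j : ℤ) * m₁ + b j) + a j * ((res p : ℤ) - k) -
          a j * (S * W) := by
        rw [hm₁]; push_cast; ring
      rw [h5]
      exact dvd_sub (dvd_add h1 (h3.mul_left _)) ((h4.mul_left _).mul_left _)
    · intro p hp hpZ hdvd
      rcases (Nat.Prime.dvd_mul hp).1 hdvd with h | h
      · have := Nat.le_of_dvd (ha j) h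
        have := haZ j
        omega
      · rw [hW, Prime.dvd_finsetProd_iff hp.prime] at h
        obtain ⟨q, hq, hpq⟩ := h
        simp only [hPr, mem_filter, mem_range] at hq
        have := (Nat.prime_dvd_prime_iff_eq hp hq.2).1 (hp.dvd_of_dvd_pow hpq)
        omega)
  filter_upwards [hev] with T hT
  refine hT.trans ?_
  norm_cast
  apply card_le_card
  intro t ht
  rw [mem_filter] at ht ⊢
  refine ⟨ht.1, fun j => ?_⟩
  have h1 := ht.2 _ (mem_image.2 ⟨j, mem_univ _, rfl⟩)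
  have h2 : (((a j : ℤ) * ((W * t + m₁ : ℕ) : ℤ) + b j).toNat) =
      a j * W * t + ((a j : ℤ) * m₁ + b j).toNat := by
    have h3 := hpos j
    have h4 : (a j : ℤ) * ((W * t + m₁ : ℕ) : ℤ) + b j =
        ((a j * W * t : ℕ) : ℤ) + ((a j : ℤ) * m₁ + b j) := by
      push_cast; ring
    rw [h4]
    omega
  have h5 : ((a j : ℤ) * ((W * t + m₁ : ℕ) : ℤ) + b j) = ((a j * (W * t + m₁) : ℕ) : ℤ) + b j := by
    push_cast; ring
  rw [← h5, h2]
  exact h1

end Pool.Agent.H311R2
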