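import Mathlib
import Pool.Agent.H311R2.Dichotomy
import Pool.Agent.H311R2.FamilyDensity
import Pool.Agent.H311R2.LocalGlobal

/-!
The dilation identity `P(m) ∏_{i ∈ J} P(2m + α_i) = (-1)^s` for Chowla products of the Möbius
function (with extra squares), and its consequence for the density of the positive sign.
-/

open Filter Topology Finset

namespace Pool.Agent.H311R2

section

variable {r : ℕ} {α : Fin r → ℤ} {ε : Fin r → ℕ}

/-- product over the off-diagonal pairs of a symmetric `±1` valued function -/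
lemma prod_symm {J : Finset (Fin r)} (f : Fin r → Fin r → ℤ) (hs : ∀ i k, f i k = f k i)
    (h1 : ∀ i ∈ J, ∀ k ∈ J, f i k * f i k = 1) :
    ∏ i ∈ J, ∏ k ∈ J, f i k = ∏ i ∈ J, f i i := by
  classical
  rw [← Finset.prod_product', ← Finset.diag_union_offDiag, Finset.prod_union (Finset.disjoint_diag_offDiag _),
    Finset.prod_diag]
  have : ∏ x ∈ J.offDiag, f x.1 x.2 = 1 := by
    refine Finset.prod_involution (fun x _ => (x.2, x.1)) ?_ ?_ ?_ ?_
    · intro x hx
      rw [mem_offDiag] at hx
      rw [hs x.2 x.1]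
      exact h1 _ hx.1 _ hx.2.1
    · intro x hx _ h
      rw [mem_offDiag] at hx
      apply hx.2.2
      have := congrArg Prod.fst h
      simpa using this.symm
    · intro x hx
      rw [mem_offDiag] at hx ⊢
      exact ⟨hx.2.1, hx.1, fun h => hx.2.2 h.symm⟩
    · intro x _
      rfl
  rw [this, mul_one]

lemma chow_of_squarefree (hε : ∀ i, ε i = 1 ∨ ε i = 2) {n : ℕ}
    (h : ∀ k, Squarefree (((n : ℤ) + α k).toNat)) :
    chow α ε n = ∏ k ∈ univ.filter (fun k => ε k = 1),
      ArithmeticFunction.moebius (((n : ℤ) + α k).toNat) := by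
  unfold chow
  rw [Finset.prod_filter]
  refine Finset.prod_congr rfl fun k _ => ?_
  rcases hε k with hk | hk
  · rw [if_pos hk, hk, pow_one]
  · rw [if_neg (by omega), hk]
    have := ArithmeticFunction.moebius_sq_eq_one_of_squarefree (h k)
    exact this

lemma chow_relation (hε : ∀ i, ε i = 1 ∨ ε i = 2) {m : ℕ}
    (hx : ∀ k, Squarefree (((m : ℤ) + α k).toNat))
    (hxpos : ∀ k, 0 < (m : ℤ) + α k)
    (hy : ∀ i k, ε i = 1 → Squarefree ((2 * (m : ℤ) + (α i + α k)).toNat))
    (hpos : ∀ i, 0 ≤ 2 * (m : ℤ) + α i) :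
    chow α ε m * ∏ i ∈ univ.filter (fun i => ε i = 1), chow α ε ((2 * (m : ℤ) + α i).toNat) =
      (-1) ^ (univ.filter (fun i => ε i = 1)).card := by
  classical
  set J := univ.filter (fun i => ε i = 1) with hJ
  have h1 : ∀ i ∈ J, chow α ε ((2 * (m : ℤ) + α i).toNat) =
      ∏ k ∈ J, ArithmeticFunction.moebius ((2 * (m : ℤ) + (α i + α k)).toNat) := by
    intro i hi
    rw [hJ, mem_filter] at hi
    have e : ∀ k, (((2 * (m : ℤ) + α i).toNat : ℕ) : ℤ) + α k = 2 * (m : ℤ) + (α i + α k) := by
      intro k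
      rw [Int.toNat_of_nonneg (hpos i)]
      ring
    rw [chow_of_squarefree hε (n := (2 * (m : ℤ) + α i).toNat)]
    · refine Finset.prod_congr rfl fun k _ => ?_
      rw [e k]
    · intro k
      rw [e k]
      exact hy i k hi.2
  rw [Finset.prod_congr rfl h1, prod_symm (J := J)
    (fun i k => ArithmeticFunction.moebius ((2 * (m : ℤ) + (α i + α k)).toNat))
    (fun i k => by rw [add_comm (α i)])
    (by
      intro i hi k _
      rw [hJ, mem_filter] at hi
      rw [← pow_two]
      exact ArithmeticFunction.moebius_sq_eq_one_of_squarefree (hy i k hi.2)),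
    chow_of_squarefree hε hx, ← Finset.prod_mul_distrib, ← Finset.prod_const]
  refine Finset.prod_congr rfl fun i hi => ?_
  rw [hJ, mem_filter] at hi
  have h2 : (2 * (m : ℤ) + (α i + α i)).toNat = 2 * ((m : ℤ) + α i).toNat := by
    have := hxpos i
    omega
  have hsq := hy i i hi.2
  rw [h2] at hsq ⊢
  have hcop : Nat.Coprime 2 (((m : ℤ) + α i).toNat) := by
    exact Nat.coprime_of_squarefree_mul hsq
  rw [ArithmeticFunction.isMultiplicative_moebius.map_mul_of_coprime hcop,
    ArithmeticFunction.moebius_apply_prime Nat.prime_two]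
  have h3 := ArithmeticFunction.moebius_sq_eq_one_of_squarefree (hx i)
  rw [pow_two] at h3
  linear_combination (-1 : ℤ) * h3

/-- counting -/
lemma exists_good {ι : Type*} [Fintype ι] (q : ℕ) (hcard : Fintype.card ι < q) (a b : ι → ℤ)
    (ha : ∀ j, IsCoprime (q : ℤ) (a j)) : ∃ m : ℕ, ∀ j, ¬ (q : ℤ) ∣ a j * m + b j := by
  classical
  by_contra hcon
  push Not at hcon
  choose f hf using hcon
  have hinj : Set.InjOn f (range q : Finset ℕ) := by
    intro x hx y hy hxy
    have h1 := hf x
    have h2 := hf y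
    rw [← hxy] at h2
    have h3 : (q : ℤ) ∣ a (f x) * ((x : ℤ) - y) := by
      have e : a (f x) * ((x : ℤ) - y) = (a (f x) * x + b (f x)) - (a (f x) * y + b (f x)) := by
        ring
      rw [e]
      exact dvd_sub h1 h2
    have h4 := (ha (f x)).dvd_of_dvd_mul_left h3
    have h5 : (x : ℤ) ≡ y [ZMOD q] := (Int.modEq_iff_dvd.2 (by
      have := (dvd_neg.2 h4)
      rwa [neg_sub] at this))
    simp only [coe_range, Set.mem_Iio] at hx hy
    have h6 : x ≡ y [MOD q] := (Int.natCast_modEq_iff).1 h5
    exact Nat.ModEq.eq_of_lt_of_lt h6 hx hy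
  have := Finset.card_le_card_of_injOn (s := range q) (t := univ) f (fun _ _ => mem_univ _) hinj
  rw [card_range, card_univ] at this
  omega

end

end Pool.Agent.H311R2
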