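import Mathlib

/-!
For every compact metric system and every point with infinite forward orbit, the partial sums of
the Landau-type series are unbounded for a residual set of continuous functions.
-/

open Filter Topology

namespace Pool.Agent.H311R2

/-- the partial sums of the Landau type series -/
noncomputable def landauSum {X : Type} (T : X → X) (f : X → ℂ) (x : X) (N : ℕ) : ℂ :=
  ∑ n ∈ Finset.Icc 1 N, ((ArithmeticFunction.moebius n : ℤ) : ℂ) / (n : ℂ) * f (T^[n] x)

lemma iterate_injective_of_infinite {X : Type} {T : X → X} {x : X}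
    (h : (Set.range fun n : ℕ => T^[n] x).Infinite) :
    Function.Injective fun n : ℕ => T^[n] x := by
  intro i j hij
  by_contra hne
  wlog hlt : i < j generalizing i j
  · exact this hij.symm (Ne.symm hne) (by omega)
  apply h
  have key : ∀ n, ∃ m < j, T^[n] x = T^[m] x := by
    intro n
    induction n with
    | zero => exact ⟨0, by omega, rfl⟩
    | succ n ih =>
      obtain ⟨m, hm, hnm⟩ := ih
      by_cases hm1 : m + 1 < j
      · exact ⟨m + 1, hm1, by rw [Function.iterate_succ_apply', hnm, Function.iterate_succ_apply']⟩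
      · refine ⟨i, hlt, ?_⟩
        have : m.succ = j := by omega
        rw [Function.iterate_succ_apply', hnm, ← Function.iterate_succ_apply' T, this]
        exact hij.symm
  refine Set.Finite.subset ((Set.finite_lt_nat j).image fun n => T^[n] x) ?_
  rintro _ ⟨n, rfl⟩
  obtain ⟨m, hm, hnm⟩ := key n
  exact ⟨m, hm, hnm.symm⟩

/-- the harmonic sum over squarefree numbers is unbounded -/
lemma sum_sq_unbounded (C : ℝ) : ∃ N : ℕ,
    C < ∑ n ∈ Finset.Icc 1 N, |((ArithmeticFunction.moebius n : ℤ) : ℝ)| / (n : ℝ) := by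
  by_contra hcon
  push Not at hcon
  apply Nat.Primes.not_summable_one_div
  have h1 : Summable (fun n : ℕ => |((ArithmeticFunction.moebius n : ℤ) : ℝ)| / (n : ℝ)) := by
    refine summable_of_sum_range_le (c := C) (fun n => by positivity) fun N => ?_
    refine le_trans ?_ (hcon N)
    rw [Finset.range_eq_Ico]
    rcases Nat.eq_zero_or_pos N with rfl | hN
    · simp
    rw [Finset.sum_eq_sum_Ico_succ_bot hN]
    simp only [Nat.cast_zero, div_zero, zero_add]
    refine Finset.sum_le_sum_of_subset_of_nonneg ?_ fun i _ _ => by positivity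
    intro n hn
    simp only [Finset.mem_Ico, Finset.mem_Icc] at hn ⊢
    omega
  have h2 := h1.comp_injective (i := fun p : Nat.Primes => (p : ℕ)) Subtype.val_injective
  refine h2.congr fun p => ?_
  simp only [Function.comp]
  rw [ArithmeticFunction.moebius_apply_prime p.2]
  simp

/-- prescribing the values of a continuous function of norm at most one at finitely many points -/
lemma exists_interp {X : Type} [MetricSpace X] [CompactSpace X] (u : ℕ → X)
    (hu : Function.Injective u) (c : ℕ → ℝ) (hc : ∀ n, |c n| ≤ 1) (N : ℕ) :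
    ∃ g : C(X, ℂ), ‖g‖ ≤ 1 ∧ ∀ n ≤ N, g (u n) = ((c n : ℝ) : ℂ) := by
  classical
  set s : Set X := u '' {n | n ≤ N} with hs
  have hsf : s.Finite := (Set.finite_le_nat N).image u
  have hsc : IsClosed s := hsf.isClosed
  have : Finite s := hsf
  have : DiscreteTopology s := inferInstance
  set φ : s → ℝ := fun y => c (Function.invFun u y) with hφ
  have hφc : Continuous φ := continuous_of_discreteTopology
  obtain ⟨G, hG, hGφ⟩ := ContinuousMap.exists_restrict_eq_forall_mem_of_closed (t := Set.Icc (-1 : ℝ) 1)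
    ⟨φ, hφc⟩ (fun y => Set.mem_Icc.2 (abs_le.1 (hc _))) ⟨0, by simp⟩ hsc
  refine ⟨⟨fun y => ((G y : ℝ) : ℂ), by fun_prop⟩, ?_, ?_⟩
  · rw [ContinuousMap.norm_le _ zero_le_one]
    intro y
    have := hG y
    simp only [ContinuousMap.coe_mk, Complex.norm_real, Real.norm_eq_abs]
    exact abs_le.2 ⟨this.1, this.2⟩
  · intro n hn
    have hmem : u n ∈ s := ⟨n, hn, rfl⟩
    have h1 := DFunLike.congr_fun hGφ ⟨u n, hmem⟩
    simp only [ContinuousMap.restrict_apply, ContinuousMap.coe_mk] at h1
    simp only [ContinuousMap.coe_mk]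
    rw [h1]
    simp only [hφ]
    rw [Function.leftInverse_invFun hu n]

theorem meagre_bounded {X : Type} [MetricSpace X] [CompactSpace X] (T : X → X) (x : X)
    (h : (Set.range fun n : ℕ => T^[n] x).Infinite) :
    IsMeagre {f : C(X, ℂ) | ∃ C : ℝ, ∀ N : ℕ, ‖landauSum T f x N‖ ≤ C} := by
  have hinj := iterate_injective_of_infinite h
  have hset : {f : C(X, ℂ) | ∃ C : ℝ, ∀ N : ℕ, ‖landauSum T f x N‖ ≤ C} ⊆
      ⋃ k : ℕ, {f : C(X, ℂ) | ∀ N : ℕ, ‖landauSum T f x N‖ ≤ k} := by
    rintro f ⟨C, hC⟩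
    obtain ⟨k, hk⟩ := exists_nat_ge C
    exact Set.mem_iUnion.2 ⟨k, fun N => (hC N).trans hk⟩
  refine IsMeagre.mono hset ?_
  refine isMeagre_iUnion fun k => ?_
  apply IsNowhereDense.isMeagre
  have hcont : ∀ N : ℕ, Continuous fun f : C(X, ℂ) => landauSum T f x N := by
    intro N
    unfold landauSum
    refine continuous_finsetSum _ fun n _ => ?_
    exact continuous_const.mul (continuous_eval_const _)
  have hclosed : IsClosed {f : C(X, ℂ) | ∀ N : ℕ, ‖landauSum T f x N‖ ≤ k} := by
    have : {f : C(X, ℂ) | ∀ N : ℕ, ‖landauSum T f x N‖ ≤ k} = ⋂ N : ℕ, {f : C(X, ℂ) | ‖landauSum T f x N‖ ≤ k} := by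
      ext f; simp
    rw [this]
    exact isClosed_iInter fun N => isClosed_le (hcont N).norm continuous_const
  rw [hclosed.isNowhereDense_iff]
  by_contra hne
  obtain ⟨f₀, hf₀⟩ := Set.nonempty_iff_ne_empty.2 hne
  obtain ⟨r, hr, hball⟩ := Metric.isOpen_iff.1 isOpen_interior f₀ hf₀
  obtain ⟨N, hN⟩ := sum_sq_unbounded (2 * (2 * k / r))
  set c : ℕ → ℝ := fun n => ((ArithmeticFunction.moebius n : ℤ) : ℝ) with hc
  have hc1 : ∀ n, |c n| ≤ 1 := fun n => by
    have : |ArithmeticFunction.moebius n| ≤ 1 := ArithmeticFunction.abs_moebius_le_one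
    simp only [hc]
    exact_mod_cast this
  obtain ⟨g, hg1, hg⟩ := exists_interp (fun n => T^[n] x) hinj c hc1 N
  have hsub := interior_subset (s := {f : C(X, ℂ) | ∀ N : ℕ, ‖landauSum T f x N‖ ≤ k})
  have h0 : ‖landauSum T f₀ x N‖ ≤ k := hsub hf₀ N
  have hmem : f₀ + ((r / 2 : ℝ) : ℂ) • g ∈ Metric.ball f₀ r := by
    rw [Metric.mem_ball, dist_eq_norm, add_sub_cancel_left, norm_smul]
    simp only [Complex.norm_real, Real.norm_eq_abs]
    rw [abs_of_pos (by positivity)]
    nlinarith
  have h1 : ‖landauSum T (f₀ + ((r / 2 : ℝ) : ℂ) • g) x N‖ ≤ k := hsub (hball hmem) N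
  have h2 : landauSum T (f₀ + ((r / 2 : ℝ) : ℂ) • g) x N =
      landauSum T f₀ x N + ((r / 2 : ℝ) : ℂ) * landauSum T g x N := by
    unfold landauSum
    rw [Finset.mul_sum, ← Finset.sum_add_distrib]
    refine Finset.sum_congr rfl fun n _ => ?_
    simp only [Pi.add_apply, Pi.smul_apply, smul_eq_mul]
    ring
  have h3 : landauSum T g x N = ((∑ n ∈ Finset.Icc 1 N,
      |((ArithmeticFunction.moebius n : ℤ) : ℝ)| / (n : ℝ) : ℝ) : ℂ) := by
    unfold landauSum
    push_cast
    refine Finset.sum_congr rfl fun n hn => ?_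
    rw [hg n (Finset.mem_Icc.1 hn).2]
    have h4 : ((ArithmeticFunction.moebius n : ℤ) : ℝ) * ((ArithmeticFunction.moebius n : ℤ) : ℝ)
        = |((ArithmeticFunction.moebius n : ℤ) : ℝ)| := by
      rcases ArithmeticFunction.moebius_eq_or n with h | h | h <;> simp [h]
    rw [← Complex.ofReal_intCast, hc]
    rw [← h4]
    push_cast
    ring
  have h5 : (r / 2) * ‖landauSum T g x N‖ ≤ 2 * k := by
    have h6 : ((r / 2 : ℝ) : ℂ) * landauSum T g x N =
        landauSum T (f₀ + ((r / 2 : ℝ) : ℂ) • g) x N - landauSum T f₀ x N := by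
      rw [h2]; ring
    have h7 : ‖((r / 2 : ℝ) : ℂ) * landauSum T g x N‖ ≤ k + k := by
      rw [h6]
      exact (norm_sub_le _ _).trans (add_le_add h1 h0)
    rw [norm_mul, Complex.norm_real, Real.norm_eq_abs, abs_of_pos (by positivity)] at h7
    linarith
  rw [h3, Complex.norm_real, Real.norm_eq_abs, abs_of_nonneg (Finset.sum_nonneg fun i _ => by positivity)] at h5
  have h8 : 2 * (2 * (k : ℝ) / r) * (r / 2) = 2 * k := by field_simp
  nlinarith

end Pool.Agent.H311R2
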