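import Mathlib
import Pool.Agent.Helper245.MobAP
import Pool.Agent.Helper222.CPE.Ent

/-!
The dyadic odometer `x ↦ x + 1` on the 2-adic integers has zero entropy, all its orbits are
infinite and it is Moebius disjoint.
-/

open Filter Topology

namespace Pool.Agent.H311R2

/-- The dyadic odometer. -/
noncomputable def odo (x : ℤ_[2]) : ℤ_[2] := x + 1

lemma odo_iter (n : ℕ) (x : ℤ_[2]) : odo^[n] x = x + n := by
  induction n with
  | zero => simp
  | succ n ih =>
    rw [Function.iterate_succ_apply', ih]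
    unfold odo
    push_cast
    ring

lemma odo_continuous : Continuous odo := by
  unfold odo
  fun_prop

lemma odo_entropy : Dynamics.coverEntropy odo Set.univ = 0 := by
  have h1 : ¬ 0 < Dynamics.coverEntropy odo (Set.univ : Set ℤ_[2]) := by
    refine Pool.Agent.Helper222.CPE.entropy_not_pos odo fun ε hε => ?_
    have hc : IsCompact (Set.univ : Set ℤ_[2]) := isCompact_univ
    obtain ⟨t, -, ht, hcov⟩ := hc.finite_cover_balls hε
    refine ⟨ht.toFinset.card, 0, fun n => ⟨ht.toFinset, by simp, fun x => ?_⟩⟩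
    have hx := hcov (Set.mem_univ x)
    simp only [Set.mem_iUnion, exists_prop] at hx
    obtain ⟨y, hy, hxy⟩ := hx
    refine ⟨y, ht.mem_toFinset.2 hy, fun i _ => ?_⟩
    rw [odo_iter, odo_iter, dist_add_right]
    exact Metric.mem_ball.1 hxy
  exact le_antisymm (not_lt.1 h1) (Dynamics.coverEntropy_nonneg odo ⟨0, Set.mem_univ _⟩)

lemma odo_orbit (x : ℤ_[2]) : (Set.range fun n : ℕ => odo^[n] x).Infinite := by
  refine Set.infinite_range_of_injective fun i j hij => ?_
  simp only [odo_iter] at hij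
  exact_mod_cast (add_left_cancel hij)

lemma mobius_ap_Icc (q a : ℕ) (hq : 0 < q) :
    Tendsto (fun N : ℕ => (∑ n ∈ Finset.Icc 1 N,
      if n % q = a then (ArithmeticFunction.moebius n : ℝ) else 0) / N) atTop (𝓝 0) := by
  have h1 := (Pool.Agent.Helper245.mobius_ap q a hq).comp (tendsto_add_atTop_nat 1)
  have h2 : Tendsto (fun N : ℕ => (((N + 1 : ℕ) : ℝ) / (N : ℝ))) atTop (𝓝 1) := by
    have h3 : Tendsto (fun N : ℕ => (1 : ℝ) + 1 / (N : ℝ)) atTop (𝓝 (1 + 0)) :=
      tendsto_const_nhds.add tendsto_one_div_atTop_nhds_zero_nat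
    rw [add_zero] at h3
    refine h3.congr' ?_
    filter_upwards [eventually_gt_atTop 0] with N hN
    have : (N : ℝ) ≠ 0 := by exact_mod_cast hN.ne'
    push_cast
    field_simp
  have h4 := h2.mul h1
  rw [mul_zero] at h4
  refine h4.congr' ?_
  filter_upwards [eventually_gt_atTop 0] with N hN
  have hN0 : (N : ℝ) ≠ 0 := by exact_mod_cast hN.ne'
  have hN1 : ((N + 1 : ℕ) : ℝ) ≠ 0 := by exact_mod_cast (Nat.succ_ne_zero N)
  have h5 : (∑ n ∈ Finset.range (N + 1), if n % q = a then (ArithmeticFunction.moebius n : ℝ) else 0) =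
      ∑ n ∈ Finset.Icc 1 N, if n % q = a then (ArithmeticFunction.moebius n : ℝ) else 0 := by
    rw [Finset.range_eq_Ico, Finset.sum_eq_sum_Ico_succ_bot (Nat.succ_pos N)]
    simp only [ArithmeticFunction.map_zero, Int.cast_zero, ite_self, zero_add]
    refine Finset.sum_congr ?_ fun n _ => rfl
    ext n; simp [Nat.succ_le_iff]
  simp only [Function.comp]
  rw [h5]
  field_simp

lemma odo_disjoint (f : ℤ_[2] → ℂ) (hf : Continuous f) (x : ℤ_[2]) :
    Tendsto (fun N : ℕ => (∑ n ∈ Finset.Icc 1 N,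
      ((ArithmeticFunction.moebius n : ℤ) : ℂ) * f (odo^[n] x)) / (N : ℂ)) atTop (𝓝 0) := by
  rw [Metric.tendsto_atTop]
  intro ε hε
  have huc : UniformContinuous f := CompactSpace.uniformContinuous_of_continuous hf
  obtain ⟨δ, hδ, hfδ⟩ := Metric.uniformContinuous_iff.1 huc (ε / 2) (half_pos hε)
  obtain ⟨k, hk⟩ := exists_pow_lt_of_lt_one hδ (by norm_num : (1 / 2 : ℝ) < 1)
  set q : ℕ := 2 ^ k with hq
  have hq0 : 0 < q := by positivity
  -- closeness
  have hclose : ∀ n : ℕ, ‖f (x + n) - f (x + ((n % q : ℕ) : ℤ_[2]))‖ < ε / 2 := by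
    intro n
    rw [← dist_eq_norm]
    apply hfδ
    rw [dist_add_left, dist_eq_norm]
    have h1 : (n : ℤ_[2]) - ((n % q : ℕ) : ℤ_[2]) = (2 : ℤ_[2]) ^ k * ((n / q : ℕ) : ℤ_[2]) := by
      have h2 : (n : ℤ_[2]) = ((q * (n / q) + n % q : ℕ) : ℤ_[2]) := by
        rw [Nat.div_add_mod]
      conv_lhs => rw [h2]
      rw [hq]
      push_cast
      ring
    rw [h1, norm_mul, norm_pow]
    have h3 : ‖(2 : ℤ_[2])‖ = 1 / 2 := by
      have := PadicInt.norm_p (p := 2)
      simpa using this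
    rw [h3]
    calc (1 / 2 : ℝ) ^ k * ‖((n / q : ℕ) : ℤ_[2])‖ ≤ (1 / 2 : ℝ) ^ k * 1 := by
          gcongr
          exact PadicInt.norm_le_one _
      _ < δ := by rw [mul_one]; exact hk
  -- periodic part
  have hper : Tendsto (fun N : ℕ => ∑ a ∈ Finset.range q, f (x + (a : ℤ_[2])) *
      (((∑ n ∈ Finset.Icc 1 N, if n % q = a then (ArithmeticFunction.moebius n : ℝ) else 0) / N : ℝ) : ℂ))
      atTop (𝓝 (∑ a ∈ Finset.range q, f (x + (a : ℤ_[2])) * ((0 : ℝ) : ℂ))) := by
    refine tendsto_finsetSum _ fun a _ => ?_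
    exact ((Complex.continuous_ofReal.tendsto 0).comp (mobius_ap_Icc q a hq0)).const_mul _
  simp only [Complex.ofReal_zero, mul_zero, Finset.sum_const_zero] at hper
  obtain ⟨N₀, hN₀⟩ := (Metric.tendsto_atTop.1 hper) (ε / 2) (half_pos hε)
  refine ⟨max N₀ 1, fun N hN => ?_⟩
  have hN1 : 1 ≤ N := le_trans (le_max_right _ _) hN
  have hNpos : (0 : ℝ) < N := by exact_mod_cast hN1
  have h1 := hN₀ N (le_trans (le_max_left _ _) hN)
  rw [dist_zero_right] at h1 ⊢
  have hdecomp : (∑ n ∈ Finset.Icc 1 N, ((ArithmeticFunction.moebius n : ℤ) : ℂ) * f (odo^[n] x)) / (N : ℂ)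
      = (∑ n ∈ Finset.Icc 1 N, ((ArithmeticFunction.moebius n : ℤ) : ℂ) *
          (f (x + n) - f (x + ((n % q : ℕ) : ℤ_[2])))) / (N : ℂ) +
        ∑ a ∈ Finset.range q, f (x + (a : ℤ_[2])) *
      (((∑ n ∈ Finset.Icc 1 N, if n % q = a then (ArithmeticFunction.moebius n : ℝ) else 0) / N : ℝ) : ℂ) := by
    have h2 : ∑ a ∈ Finset.range q, f (x + (a : ℤ_[2])) *
      (((∑ n ∈ Finset.Icc 1 N, if n % q = a then (ArithmeticFunction.moebius n : ℝ) else 0) / N : ℝ) : ℂ)
        = (∑ n ∈ Finset.Icc 1 N, ((ArithmeticFunction.moebius n : ℤ) : ℂ) *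
          f (x + ((n % q : ℕ) : ℤ_[2]))) / (N : ℂ) := by
      have h3 : ∀ n : ℕ, ((ArithmeticFunction.moebius n : ℤ) : ℂ) * f (x + ((n % q : ℕ) : ℤ_[2])) =
          ∑ a ∈ Finset.range q, f (x + (a : ℤ_[2])) *
            (if n % q = a then ((ArithmeticFunction.moebius n : ℤ) : ℂ) else 0) := by
        intro n
        simp only [mul_ite, mul_zero]
        rw [Finset.sum_ite_eq, if_pos (Finset.mem_range.2 (Nat.mod_lt n hq0))]
        ring
      simp_rw [h3]
      rw [Finset.sum_comm, Finset.sum_div]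
      refine Finset.sum_congr rfl fun a _ => ?_
      rw [← Finset.mul_sum]
      push_cast
      rw [mul_div_assoc]
      congr 2
      refine Finset.sum_congr rfl fun n _ => ?_
      split_ifs <;> simp
    rw [h2, ← add_div, ← Finset.sum_add_distrib]
    congr 1
    refine Finset.sum_congr rfl fun n _ => ?_
    rw [odo_iter]
    ring
  rw [hdecomp]
  refine lt_of_le_of_lt (norm_add_le _ _) ?_
  have h4 : ‖(∑ n ∈ Finset.Icc 1 N, ((ArithmeticFunction.moebius n : ℤ) : ℂ) *
          (f (x + n) - f (x + ((n % q : ℕ) : ℤ_[2])))) / (N : ℂ)‖ ≤ ε / 2 := by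
    rw [norm_div, Complex.norm_natCast, div_le_iff₀ hNpos]
    refine (norm_sum_le _ _).trans ?_
    calc ∑ n ∈ Finset.Icc 1 N, ‖((ArithmeticFunction.moebius n : ℤ) : ℂ) *
          (f (x + n) - f (x + ((n % q : ℕ) : ℤ_[2])))‖ ≤ ∑ n ∈ Finset.Icc 1 N, ε / 2 := by
          refine Finset.sum_le_sum fun n _ => ?_
          rw [norm_mul]
          have h5 : ‖((ArithmeticFunction.moebius n : ℤ) : ℂ)‖ ≤ 1 := by
            rw [Complex.norm_intCast]
            have : |ArithmeticFunction.moebius n| ≤ 1 := ArithmeticFunction.abs_moebius_le_one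
            exact_mod_cast this
          have h6 := hclose n
          have h7 := norm_nonneg (f (x + n) - f (x + ((n % q : ℕ) : ℤ_[2])))
          nlinarith
      _ = ε / 2 * N := by
          rw [Finset.sum_const, Nat.card_Icc]
          simp
          ring
  linarith

end Pool.Agent.H311R2
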